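import Pool.Agent.Y776.Cv.Fix
import Pool.Agent.Y776.Cv.GenK

/-!
# The elliptico-toric conjecture at the algebraic points of arbitrary analytic curves

Let `E_1, …, E_q` be pairwise non-isogenous complex elliptic curves with the lattices `Λ_1, …, Λ_q`; the
invariants are arbitrary complex numbers. Let `t_1, …, t_s` and `p_1, …, p_r` be analytic functions on a
connected open set `U`, where `p_i` is a logarithm for the curve of type `ty i`, such that no nontrivial
combination `∑ m_k t_k` with integral coefficients is constant, and for every `c` no nontrivial combination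
of the `p_i` of type `c` with coefficients in `End(E_c)` is constant. There is no other condition on these
functions: the curve `z ↦ (t(z), p(z))` in the Lie algebra of `G_m^s × ∏ E_c^{r_c}` is not contained in a
translate of the Lie algebra of a proper algebraic subgroup.

The elliptico-toric conjecture (for one elliptic curve) says that in general the transcendence degree of the
field generated by `g₂, g₃, ω₁, ω₂, η₁, η₂` and the numbers `t_k, exp(t_k), p_i, ℘(p_i), ζ(p_i)` is at least
`4 / [k : ℚ] + s + 2 r`. We show that `s + 2 r` fixed functions among `t_k, exp(t_k), p_i, ℘(p_i), ζ(p_i)` do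
not satisfy any approximate relation of bounded degree and of height `T^A` at algebraic points `z` of height
at most `T`, with the exception of `C T^ε` points, for all number fields of degree at most `m` together; and
for `n` curves and the `n`-tuples of points, that the `∑ (s_j + 2 r_j)` numbers have no such relation with
the exception of `C T^ε N^(n-1)` tuples, where `N` is the number of points. The coefficients of the relations
are combinations, with coefficients which are integers of the number field, of arbitrary complex numbers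
`ξ_1, …, ξ_g`, for instance of monomials in `g₂, g₃, ω₁, ω₂, η₁, η₂`, and the constants do not depend on the
`ξ_i`. So the inequality of the conjecture holds in bounded degree and height at these points relative to the
field `ℚ(g₂, g₃, ω₁, ω₂, η₁, η₂)`, of transcendence degree `2 = 4 / [k : ℚ]` for curves with complex
multiplication and algebraic invariants (Chudnovsky).

The proof uses theorems of Ax on the exponential functions of these groups and a determinant method.
-/

set_option autoImplicit false

open NumberField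
open scoped PeriodPair

namespace Pool.Agent.Results.MP_8da9ea_nt.CurvesInFixedGroups

/-- The Weierstrass zeta function `ζ(z) = ∑ (1/(z-l) + 1/l + z/l²)`, the sum over the lattice (the summand of
`l = 0` is `1/z`, since `1/0 = 0` in Lean). -/
noncomputable def ζ (L : PeriodPair) (z : ℂ) : ℂ :=
  ∑' l : L.lattice, (1 / (z - l) + 1 / l + z / l ^ 2)

/-- An analytic curve in the Lie algebra of the product of a torus and of powers of elliptic curves. -/
structure Curve (U : Set ℂ) {q r s : ℕ} (Λ : Fin q → PeriodPair) (ty : Fin r → Fin q)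
    (p : Fin r → ℂ → ℂ) (t : Fin s → ℂ → ℂ) : Prop where
  isOpen : IsOpen U
  isPreconnected : IsPreconnected U
  nonempty : U.Nonempty
  pos : 0 < s + r
  /-- there is no nonzero homomorphism between different elliptic curves -/
  nonisogenous : ∀ c c', c ≠ c' → ∀ α : ℂ, (∀ w ∈ (Λ c).lattice, α * w ∈ (Λ c').lattice) → α = 0
  analytic_p : ∀ i, AnalyticOnNhd ℂ (p i) U
  p_notMem : ∀ i, ∀ z ∈ U, p i z ∉ (Λ (ty i)).lattice
  /-- no nontrivial combination of the `p_i` of type `c` with coefficients in the ring of endomorphisms of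
  the elliptic curve is constant -/
  independent_p : ∀ (c : Fin q) (a : Fin r → ℂ) (b : ℂ),
    (∀ i, ∀ w ∈ (Λ c).lattice, a i * w ∈ (Λ c).lattice) → (∀ i, ty i ≠ c → a i = 0) →
    (∀ z ∈ U, ∑ i, a i * p i z = b) → a = 0
  analytic_t : ∀ k, AnalyticOnNhd ℂ (t k) U
  /-- no nontrivial combination with integral coefficients of the `t_k` is constant -/
  independent_t : ∀ (m : Fin s → ℤ) (b : ℂ), (∀ z ∈ U, ∑ k, (m k : ℂ) * t k z = b) → m = 0

/-- The names of the functions `t_k`, `exp(t_k)`, `p_i`, `℘(p_i)`, `ζ(p_i)`. -/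
inductive Name (r s : ℕ) : Type
  | t : Fin s → Name r s
  | expt : Fin s → Name r s
  | p : Fin r → Name r s
  | wp : Fin r → Name r s
  | zeta : Fin r → Name r s

/-- The values of the functions at the point `z`. -/
noncomputable def value {q r s : ℕ} (Λ : Fin q → PeriodPair) (ty : Fin r → Fin q) (p : Fin r → ℂ → ℂ)
    (t : Fin s → ℂ → ℂ) (z : ℂ) : Name r s → ℂ
  | Name.t k => t k z
  | Name.expt k => Complex.exp (t k z)
  | Name.p i => p i z
  | Name.wp i => ℘[Λ (ty i)] (p i z)
  | Name.zeta i => ζ (Λ (ty i)) (p i z)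

/-- The elements of the number field `F` with image in `K` which are quotients of two integers of `F` all of
whose conjugates have absolute value at most `T`. -/
def Points (F : Type) [Field F] [NumberField F] (ι : F →+* ℂ) (K : Set ℂ) (T : ℝ) : Set F :=
  {x | ι x ∈ K ∧ ∃ a b : 𝓞 F, b ≠ 0 ∧ (∀ φ : F →+* ℂ, ‖φ a‖ ≤ T ∧ ‖φ b‖ ≤ T) ∧ x = a / b}

/-- The `n`-tuples `x` of points of `F` for which there is a polynomial `P` of degree at most `d` in each
variable, with coefficients of the form `∑ ξ_i ι(c_i)`, where the `c_i` are integers of `F` all of whose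
conjugates have absolute value at most `T ^ A`, such that the value of `P` at the numbers `v j (ι (x j)) i` is
at most `T ^ (-B)` times the absolute value of some nonzero coefficient of `P`. -/
def Exceptional (n d : ℕ) {g : ℕ} {J : Fin n → Type} (v : ∀ j, ℂ → J j → ℂ) (F : Type) [Field F]
    [NumberField F] (ι : F →+* ℂ) (ξ : Fin g → ℂ) (K : Fin n → Set ℂ) (A B T : ℝ) : Set (Fin n → F) :=
  {x | (∀ j, x j ∈ Points F ι (K j) T) ∧ ∃ P : MvPolynomial (Σ j, J j) ℂ, (∀ y, P.degreeOf y ≤ d) ∧
    (∀ s, ∃ c : Fin g → 𝓞 F, (∀ i (φ : F →+* ℂ), ‖φ (c i)‖ ≤ T ^ A) ∧ P.coeff s = ∑ i, ξ i * ι (c i)) ∧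
    ∃ s₀, P.coeff s₀ ≠ 0 ∧
      ‖MvPolynomial.aeval (fun y : Σ j, J j => v y.1 (ι (x y.1)) y.2) P‖ ≤ T ^ (-B) * ‖P.coeff s₀‖}

theorem exists_name (r s : ℕ) : ∃ f : Y776.Cv.Nf r s → Name r s, Function.Injective f ∧
    ∀ {q : ℕ} (Λ : Fin q → PeriodPair) (ty : Fin r → Fin q) (p : Fin r → ℂ → ℂ) (t : Fin s → ℂ → ℂ)
      (z : ℂ) (i : Y776.Cv.Nf r s), value Λ ty p t z (f i) = Y776.Cv.yf Λ ty p t i z := by
  let f : Y776.Cv.Nf r s → Name r s :=
    Sum.elim Name.t (Sum.elim Name.expt (Sum.elim Name.p (Sum.elim Name.zeta Name.wp)))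
  let g : Name r s → Y776.Cv.Nf r s := fun a => match a with
    | Name.t k => Sum.inl k
    | Name.expt k => Sum.inr (Sum.inl k)
    | Name.p i => Sum.inr (Sum.inr (Sum.inl i))
    | Name.zeta i => Sum.inr (Sum.inr (Sum.inr (Sum.inl i)))
    | Name.wp i => Sum.inr (Sum.inr (Sum.inr (Sum.inr i)))
  have hg : Function.LeftInverse g f := by
    rintro (a | a | a | a | a) <;> rfl
  refine ⟨f, hg.injective, ?_⟩
  intro q Λ ty p t z i
  rcases i with a | a | a | a | a <;> rfl

/-- For `n` curves (equal or different) one can choose, for each `j`, `s_j + 2 r_j` different functions `e_j`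
among the `2 s_j + 3 r_j` functions of the `j`-th curve, such that for all compact sets `K_j` contained in
`U_j`, and all `m`, `g`, `d`, `A` and `ε > 0` there are `B`, `C`, `T₀` such that for every number field `F` of
degree at most `m`, every embedding of `F` in `ℂ`, all complex numbers `ξ_1, …, ξ_g` and all `T ≥ T₀` the
number of `n`-tuples which are exceptional for the chosen functions is at most `C T^ε N^(n - 1)`, where `N` is
the number of points in the union of the `K_j`. -/
theorem result {n : ℕ} {q r s : Fin n → ℕ} (U : Fin n → Set ℂ) (Λ : ∀ j, Fin (q j) → PeriodPair)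
    (ty : ∀ j, Fin (r j) → Fin (q j)) (p : ∀ j, Fin (r j) → ℂ → ℂ) (t : ∀ j, Fin (s j) → ℂ → ℂ)
    (hU : ∀ j, Curve (U j) (Λ j) (ty j) (p j) (t j)) :
    ∃ e : ∀ j, Fin (s j + 2 * r j) → Name (r j) (s j), (∀ j, Function.Injective (e j)) ∧
      ∀ K : Fin n → Set ℂ, (∀ j, IsCompact (K j)) → (∀ j, K j ⊆ U j) →
        ∀ (m g d : ℕ) (A ε : ℝ), 0 < ε →
        ∃ B C T₀ : ℝ, ∀ (F : Type) [Field F] [NumberField F], Module.finrank ℚ F ≤ m → ∀ (ι : F →+* ℂ)
          (ξ : Fin g → ℂ) (T : ℝ), T₀ ≤ T →
          (Exceptional n d (fun j z k => value (Λ j) (ty j) (p j) (t j) z (e j k)) F ι ξ K A B T).Finite ∧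
            ((Exceptional n d (fun j z k => value (Λ j) (ty j) (p j) (t j) z (e j k)) F ι ξ K A B
              T).ncard : ℝ) ≤
              C * T ^ ε * ((Points F ι (⋃ j, K j) T).ncard : ℝ) ^ (n - 1) := by
  classical
  have hF : ∀ j, Y776.Cv.FxM (U j) (Λ j) (ty j) (p j) (t j) := fun j =>
    { isOpen := (hU j).isOpen, conn := (hU j).isPreconnected, ni := (hU j).nonisogenous
      ua := (hU j).analytic_p, un := (hU j).p_notMem, ui := (hU j).independent_p
      la := (hU j).analytic_t, li := (hU j).independent_t }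
  choose e he hL using fun j => Y776.Cv.fix_sub (hF j) (hU j).pos (hU j).nonempty
  choose nm hnm hv' using fun j => exists_name (r j) (s j)
  have hv : ∀ j z i, value (Λ j) (ty j) (p j) (t j) z (nm j i) =
      Y776.Cv.yf (Λ j) (ty j) (p j) (t j) i z := fun j z i => hv' j (Λ j) (ty j) (p j) (t j) z i
  refine ⟨fun j k => nm j (e j k), fun j => (hnm j).comp (he j), ?_⟩
  intro K hK hKU m g d A ε hε
  obtain ⟨B, C, T₀, hC, hT₀, H⟩ := Y776.Cv.nf_genSK (η := Fin g) m n d
    (fun j => (hU j).isOpen) (fun j => (hU j).isPreconnected)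
    (y := fun j k => Y776.Cv.yf (Λ j) (ty j) (p j) (t j) (e j k))
    (fun j k => Y776.Cv.yf_an (hF j) (e j k)) (fun j => hL j) hK hKU
    (S := ⋃ j, K j) (fun j => Set.subset_iUnion K j) A ε hε
  refine ⟨B, C, T₀, fun F _ _ hm ι ξ T hT => ?_⟩
  have hT0 : 0 ≤ T := by linarith
  have hP : ∀ K : Set ℂ, Points F ι K T = {x : F | Y120.HtLe F T x ∧ ι x ∈ K} := by
    intro K
    ext x
    constructor
    · rintro ⟨h1, a, b, hb, hab, hx⟩
      exact ⟨⟨a, b, hb, Y120.house_le F hT0 fun φ => (hab φ).1, Y120.house_le F hT0 fun φ => (hab φ).2, hx⟩, h1⟩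
    · rintro ⟨⟨a, b, hb, ha, hb', hx⟩, h1⟩
      exact ⟨h1, a, b, hb, fun φ => ⟨(Y120.house_ge F _ φ).trans ha, (Y120.house_ge F _ φ).trans hb'⟩, hx⟩
  have key := H F hm ι ξ T hT
    (Exceptional n d (fun j z k => value (Λ j) (ty j) (p j) (t j) z (nm j (e j k))) F ι ξ K A B T) (by
    rintro x ⟨hx, P, hPd, hPc, s₀, hs₀, hs⟩
    refine ⟨fun j => ?_, P, hPd, hPc, s₀, hs₀, ?_⟩
    · have h1 := hx j
      rw [hP] at h1
      exact h1
    · simp only [hv] at hs
      exact hs)
  rw [hP]
  exact key

end Pool.Agent.Results.MP_8da9ea_nt.CurvesInFixedGroups
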