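import Pool.Agent.R351.GD.S.SchE

/-!
# The elliptico-toric inequality for almost all translates of every point by algebraic points: relations of growing degree

Let `E : y² = 4 x³ - g₂ x - g₃` be an elliptic curve with rational `g₂`, `g₃` and lattice `Λ`. Let `(z, y)` be any point of
the Lie algebra `ℂⁿ × ℂˢ` of `E^n × G_m^s`. We translate it by logarithms of algebraic points `((α_i, β_i))_i, (α_(n+l))_l`:
`p_i = z_i + (a number with ℘ = α_i)`, `t_l = y_l + log α_(n+l)`. The `n + s` algebraic integers `α` are independent of each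
other.

The theorem: for all tuples `α` of algebraic integers of degree at most `m` with conjugates at most `T` (each in its own
number field), but a proportion `C T^(-1/(δ + 2)^C)`, and all translates `(p, t)` every polynomial relation of degree at
most `δ` over number fields of degree at most `δ`, of any height, between arbitrary constants `w_1, ..., w_q` (for instance
`ω₁, ω₂, η₁, η₂`), the numbers `p_i`, `ζ(p_i)`, `t_l` and the numbers `℘(p_i)`, `℘'(p_i)`, `exp(t_l)` is an identity in the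
numbers `p_i`, `ζ(p_i)`, `t_l`. The number `C` does not depend on `δ`, `T`, `(z, y)` and `w`; so `δ` may grow like a fixed
power of `log T / log log T`. In these degrees the transcendence degree of the elliptico-toric field over
`ℚ(ω₁, ω₂, η₁, η₂)` is at least `2 n + s`; if `E` has complex multiplication, then the transcendence degree of
`ℚ(ω₁, ω₂, η₁, η₂)` is `2 = 4 / [k : ℚ]` (Chudnovsky), and one obtains the full elliptico-toric lower bound.

The proof follows the starting library (`MP_8da9ea_nt.AlmostAllTranslates`, `MP_c9768e_nt.BoundedDegreeTuples`, project SL;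
parts by helper333, helper71, helper261, helper419, helper113, helper787, helper708, helper921), with polynomial bounds in
`δ` at every step, and the addition theorem (in a starting file, `Pool.Agent.H667R3.W5`).
-/

set_option autoImplicit false

open scoped PeriodPair

namespace Pool.Agent.Results.MP_8da9ea_nt.GrowingDegreeTranslates

/-- The Weierstrass zeta function `ζ(z) = ∑ (1/(z-l) + 1/l + z/l²)`, the sum over the lattice (the summand of `l = 0` is
`1/z`, since `1/0 = 0` in Lean). -/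
noncomputable def zeta (Λ : PeriodPair) (z : ℂ) : ℂ := ∑' l : Λ.lattice, (1 / (z - l) + 1 / l + z / l ^ 2)

/-- The algebraic integers of degree at most `m` all of whose conjugates have absolute value at most `T`. -/
def integers (m T : ℕ) : Set ℂ :=
  {α | IsIntegral ℤ α ∧ (minpoly ℚ α).natDegree ≤ m ∧ ∀ z : ℂ, Polynomial.aeval z (minpoly ℚ α) = 0 → ‖z‖ ≤ T}

/-- The numbers `p_i`, `ζ(p_i)` and `t_l`. -/
noncomputable def logarithms (Λ : PeriodPair) {n s : ℕ} (p : Fin n → ℂ) (t : Fin s → ℂ) : Fin n × Fin 2 ⊕ Fin s → ℂ :=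
  Sum.elim (fun a => ![p a.1, zeta Λ (p a.1)] a.2) t

/-- The numbers `℘(p_i)`, `℘'(p_i)` and `exp(t_l)`. -/
noncomputable def points (Λ : PeriodPair) {n s : ℕ} (p : Fin n → ℂ) (t : Fin s → ℂ) : Fin n × Fin 2 ⊕ Fin s → ℂ :=
  Sum.elim (fun a => ![℘[Λ] (p a.1), ℘'[Λ] (p a.1)] a.2) fun l => Complex.exp (t l)

/-- Every polynomial relation of degree `≤ δ` over a number field of degree `≤ δ` between the constants `w`, the
`logarithms` and the `points` of `(p, t)` is an identity in the logarithms. -/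
def FreeOverPoints (Λ : PeriodPair) (δ : ℕ) {q n s : ℕ} (w : Fin q → ℂ) (p : Fin n → ℂ) (t : Fin s → ℂ) : Prop :=
  ∀ L : IntermediateField ℚ ℂ, FiniteDimensional ℚ L → Module.finrank ℚ L ≤ δ →
  ∀ P : MvPolynomial (Fin q ⊕ ((Fin n × Fin 2 ⊕ Fin s) ⊕ (Fin n × Fin 2 ⊕ Fin s))) L, P.totalDegree ≤ δ →
  MvPolynomial.aeval (Sum.elim w (Sum.elim (logarithms Λ p t) (points Λ p t))) P = 0 →
  ∀ v : Fin n × Fin 2 ⊕ Fin s → ℂ, MvPolynomial.aeval (Sum.elim w (Sum.elim v (points Λ p t))) P = 0

/-- `(p, t)` is the sum of `(z, y)` and a logarithm of the point of `E^n × G_m^s` with the coordinates `(α_i, ±β_i)`,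
`i = 1..n`, and `α_(n+l)`, `l = 1..s`; no `p_i` is in the lattice. -/
def IsTranslate (Λ : PeriodPair) {n s : ℕ} (z : Fin n → ℂ) (y : Fin s → ℂ) (α : Fin (n + s) → ℂ) (p : Fin n → ℂ)
    (t : Fin s → ℂ) : Prop :=
  (∀ i, p i ∉ Λ.lattice ∧ p i - z i ∉ Λ.lattice ∧ ℘[Λ] (p i - z i) = α (Fin.castAdd s i)) ∧
    ∀ l, Complex.exp (t l - y l) = α (Fin.natAdd n l)

/-- Let `Λ` be a lattice with rational invariants and `m ≥ 1`. For all `n`, `s`, `q` there is `C` such that for all `δ`,
all `(z, y)` in `ℂⁿ × ℂˢ`, all complex `w_1, ..., w_q` and all `T ≥ 1`, for all but at most a proportion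
`C T^(-1/(δ + 2)^C)` of the `(n + s)`-tuples `α` of algebraic integers of degree at most `m` with conjugates at most `T`, all
translates of `(z, y)` by logarithms of the point given by `α` are free over their points and `w`, for relations of degree
at most `δ` over number fields of degree at most `δ`. -/
theorem result (Λ : PeriodPair) (a b : ℚ) (ha : Λ.g₂ = a) (hb : Λ.g₃ = b) (n s q m : ℕ) (hm : 1 ≤ m) :
    ∃ C : ℕ, ∀ (δ : ℕ) (w : Fin q → ℂ) (z : Fin n → ℂ) (y : Fin s → ℂ) (T : ℕ), 1 ≤ T →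
      (integers m T).Finite ∧
      ({α : Fin (n + s) → ℂ | (∀ i, α i ∈ integers m T) ∧ ¬ ∀ (p : Fin n → ℂ) (t : Fin s → ℂ),
        IsTranslate Λ z y α p t → FreeOverPoints Λ δ w p t}.ncard : ℝ) ≤
        C * (T : ℝ) ^ (-(1 / ((δ : ℝ) + 2) ^ C)) * ((integers m T).ncard : ℝ) ^ (n + s) := by
  obtain ⟨c₁, hc₁, h₁⟩ := Pool.Agent.Y916.Sl.many m hm
  obtain ⟨C, h⟩ := Pool.Agent.R351.GD.tupP_exp Λ a b ha hb n s q m hm
  obtain ⟨C', hC'⟩ := exists_nat_ge ((C : ℝ) / c₁ ^ (n + s))
  refine ⟨C + C', fun δ w z y T hT => ⟨Pool.Agent.Y916.Sl.sint_fin m T, ?_⟩⟩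
  obtain ⟨hf, hle⟩ := h δ w z y T hT
  have hT1 : (1 : ℝ) ≤ T := by exact_mod_cast hT
  have h2 := hle.trans (Pool.Agent.Y916.Sl.prop_bound hc₁ (Nat.cast_nonneg C) hT (h₁ T hT))
  refine le_trans ?_ (h2.trans ?_)
  · refine Nat.cast_le.2 (Set.ncard_le_ncard ?_ hf)
    rintro α ⟨hα1, hα2⟩
    refine ⟨fun i => Pool.Agent.Y916.Sl.SInt.aint (hα1 i), ?_⟩
    simp only [not_forall] at hα2
    obtain ⟨p, t, hu, hF⟩ := hα2
    exact ⟨p, t, hu.1, hu.2, hF⟩
  · have hδ : (1 : ℝ) ≤ (δ : ℝ) + 2 := by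
      have : (0 : ℝ) ≤ δ := Nat.cast_nonneg δ
      linarith
    have h3 : 1 / ((δ : ℝ) + 2) ^ (C + C') ≤ 1 / ((δ : ℝ) + 2) ^ C :=
      one_div_le_one_div_of_le (by positivity) (pow_le_pow_right₀ hδ (Nat.le_add_right _ _))
    have h4 : (T : ℝ) ^ (-(1 / ((δ : ℝ) + 2) ^ C)) ≤ (T : ℝ) ^ (-(1 / ((δ : ℝ) + 2) ^ (C + C'))) :=
      Real.rpow_le_rpow_of_exponent_le hT1 (by linarith)
    have h5 : (C : ℝ) / c₁ ^ (n + s) ≤ ((C + C' : ℕ) : ℝ) := by
      push_cast
      have : (0 : ℝ) ≤ C := Nat.cast_nonneg C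
      linarith
    refine mul_le_mul_of_nonneg_right ?_ (by positivity)
    exact mul_le_mul h5 h4 (by positivity) (Nat.cast_nonneg _)

end Pool.Agent.Results.MP_8da9ea_nt.GrowingDegreeTranslates
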