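import Pool.Agent.R349.Short2

/-!
# The elliptico-toric conjecture on arbitrary analytic curves: a bounded number of exceptions in small discs

Let `E_1, …, E_q` be pairwise non-isogenous complex elliptic curves with the lattices `Λ_1, …, Λ_q`; the
invariants are arbitrary complex numbers. Let `t_1, …, t_s` and `p_1, …, p_r` be analytic functions on a
connected open set `U`, where `p_i` is a logarithm for the curve of type `ty i`, such that no nontrivial
combination `∑ m_k t_k` with integral coefficients is constant, and for every `c` no nontrivial combination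
of the `p_i` of type `c` with coefficients in `End(E_c)` is constant. There is no other condition on these
functions.

The elliptico-toric conjecture (for one elliptic curve) says that in general the transcendence degree of the
field generated by `g₂, g₃, ω₁, ω₂, η₁, η₂` and the numbers `t_k, exp(t_k), p_i, ℘(p_i), ζ(p_i)` is at least
`4 / [k : ℚ] + s + 2 r`. We show that `s + 2 r` fixed functions among `t_k, exp(t_k), p_i, ℘(p_i), ζ(p_i)` satisfy no
approximate relation of bounded degree and height `T ^ A` at algebraic points of height at most `T`, with **at most `C`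
exceptions in each disc of radius `T ^ (-δ)`**, for all number fields of degree at most `m`, for `δ > 0` arbitrary: let
`X_1, …, X_n` be finite sets of elements `x` of a number field `F` of degree at most `m`, of height at most `T`, with
images in compact sets `K_j`, each of the `X_j` of diameter at most `T ^ (-δ)`; for instance all elements of `X_j` can be
fractions with one fixed denominator `T`. For `n` curves and the tuples of `X_1 × … × X_n` all but
`C ∑_j ∏_(i ≠ j) |X_i|` tuples are good, and there is a good one if all `|X_j| > C`. Good means that the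
`∑ (s_j + 2 r_j)` numbers satisfy no approximate relation of degree at most `d` and height at most `T ^ A` whose
coefficients are combinations of given complex numbers `ξ_1, …, ξ_g`, for instance of monomials in
`g₂, g₃, ω₁, ω₂, η₁, η₂`, and together with `π` no relation over `F`. The constants do not depend on the `ξ_i`. So the
inequality of the conjecture holds in bounded degree and height at these points relative to the field
`ℚ(g₂, g₃, ω₁, ω₂, η₁, η₂)`, of transcendence degree `2 = 4 / [k : ℚ]` for curves with complex multiplication and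
algebraic invariants (Chudnovsky).

The proof uses theorems of Ax on the exponential functions of these groups, relative to countable fields of constants
(`Pool.Agent.Y776.Cv.fix_sub`), and a determinant method for small discs (`Pool.Agent.R349.Gen.shortS`).
-/

set_option autoImplicit false

open NumberField
open scoped PeriodPair

namespace Pool.Agent.Results.MP_8da9ea_nt.SmallDiscs

/-- The Weierstrass zeta function `ζ(z) = ∑ (1/(z-l) + 1/l + z/l²)`, the sum over the lattice (the summand of
`l = 0` is `1/z`, since `1/0 = 0` in Lean). -/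
noncomputable def ζ (L : PeriodPair) (z : ℂ) : ℂ :=
  ∑' l : L.lattice, (1 / (z - l) + 1 / l + z / l ^ 2)

/-- An analytic curve in the Lie algebra of the product of a torus and of powers of elliptic curves. -/
structure Curve (U : Set ℂ) {q r s : ℕ} (Λ : Fin q → PeriodPair) (ty : Fin r → Fin q)
    (p : Fin r → ℂ → ℂ) (t : Fin s → ℂ → ℂ) : Prop where
  isOpen : IsOpen U
  isPreconnected : IsPreconnected U
  nonempty : U.Nonempty
  pos : 0 < s + r
  /-- there is no nonzero homomorphism between different elliptic curves -/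
  nonisogenous : ∀ c c', c ≠ c' → ∀ α : ℂ, (∀ w ∈ (Λ c).lattice, α * w ∈ (Λ c').lattice) → α = 0
  analytic_p : ∀ i, AnalyticOnNhd ℂ (p i) U
  p_notMem : ∀ i, ∀ z ∈ U, p i z ∉ (Λ (ty i)).lattice
  /-- no nontrivial combination of the `p_i` of type `c` with coefficients in the ring of endomorphisms of
  the elliptic curve is constant -/
  independent_p : ∀ (c : Fin q) (a : Fin r → ℂ) (b : ℂ),
    (∀ i, ∀ w ∈ (Λ c).lattice, a i * w ∈ (Λ c).lattice) → (∀ i, ty i ≠ c → a i = 0) →
    (∀ z ∈ U, ∑ i, a i * p i z = b) → a = 0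
  analytic_t : ∀ k, AnalyticOnNhd ℂ (t k) U
  /-- no nontrivial combination with integral coefficients of the `t_k` is constant -/
  independent_t : ∀ (m : Fin s → ℤ) (b : ℂ), (∀ z ∈ U, ∑ k, (m k : ℂ) * t k z = b) → m = 0

/-- The names of the functions `t_k`, `exp(t_k)`, `p_i`, `℘(p_i)`, `ζ(p_i)`. -/
inductive Name (r s : ℕ) : Type
  | t : Fin s → Name r s
  | expt : Fin s → Name r s
  | p : Fin r → Name r s
  | wp : Fin r → Name r s
  | zeta : Fin r → Name r s

/-- The values of the functions at the point `z`. -/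
noncomputable def value {q r s : ℕ} (Λ : Fin q → PeriodPair) (ty : Fin r → Fin q) (p : Fin r → ℂ → ℂ)
    (t : Fin s → ℂ → ℂ) (z : ℂ) : Name r s → ℂ
  | Name.t k => t k z
  | Name.expt k => Complex.exp (t k z)
  | Name.p i => p i z
  | Name.wp i => ℘[Λ (ty i)] (p i z)
  | Name.zeta i => ζ (Λ (ty i)) (p i z)

/-- The polynomials of degree at most `d` in each variable, all of whose coefficients are of the form `∑ ξ_i ι(c_i)`, where
the `c_i` are integers of the number field `F` all of whose conjugates have absolute value at most `H`. -/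
def Admissible {σ : Type} {g : ℕ} (F : Type) [Field F] [NumberField F] (ι : F →+* ℂ) (ξ : Fin g → ℂ) (d : ℕ) (H : ℝ)
    (P : MvPolynomial σ ℂ) : Prop :=
  (∀ y, P.degreeOf y ≤ d) ∧
    ∀ s, ∃ c : Fin g → 𝓞 F, (∀ i (φ : F →+* ℂ), ‖φ (c i)‖ ≤ H) ∧ P.coeff s = ∑ i, ξ i * ι (c i)

/-- The complex numbers `v` are good: every admissible polynomial takes at them a value which is at least `δ` times each of
its coefficients, and `π` and these numbers satisfy no relation `Q = 0` with a nonzero polynomial `Q` of degree at most `d`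
in each variable whose coefficients are integers of `F` with conjugates of absolute value at most `H`. -/
def Good {σ : Type} {g : ℕ} (F : Type) [Field F] [NumberField F] (ι : F →+* ℂ) (ξ : Fin g → ℂ) (d : ℕ)
    (H δ : ℝ) (v : σ → ℂ) : Prop :=
  (∀ P : MvPolynomial σ ℂ, Admissible F ι ξ d H P → ∀ s, δ * ‖P.coeff s‖ ≤ ‖MvPolynomial.aeval v P‖) ∧
  ∀ Q : MvPolynomial (Option σ) (𝓞 F), Q ≠ 0 → (∀ x, Q.degreeOf x ≤ d) →
    (∀ s (φ : F →+* ℂ), ‖φ ((Q.coeff s : 𝓞 F) : F)‖ ≤ H) →
    MvPolynomial.eval₂ (ι.comp (algebraMap (𝓞 F) F)) (fun o => o.elim (Real.pi : ℂ) v) Q ≠ 0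

/-- The element `x` of `F` is a quotient of integers all of whose conjugates have absolute value at most `T`. -/
def HeightLe (F : Type) [Field F] [NumberField F] (T : ℝ) (x : F) : Prop :=
  ∃ a b : 𝓞 F, b ≠ 0 ∧ (∀ φ : F →+* ℂ, ‖φ a‖ ≤ T ∧ ‖φ b‖ ≤ T) ∧ x = a / b

theorem exists_name (r s : ℕ) : ∃ f : Y776.Cv.Nf r s → Name r s, Function.Injective f ∧
    ∀ {q : ℕ} (Λ : Fin q → PeriodPair) (ty : Fin r → Fin q) (p : Fin r → ℂ → ℂ) (t : Fin s → ℂ → ℂ)
      (z : ℂ) (i : Y776.Cv.Nf r s), value Λ ty p t z (f i) = Y776.Cv.yf Λ ty p t i z := by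
  let f : Y776.Cv.Nf r s → Name r s :=
    Sum.elim Name.t (Sum.elim Name.expt (Sum.elim Name.p (Sum.elim Name.zeta Name.wp)))
  let g : Name r s → Y776.Cv.Nf r s := fun a => match a with
    | Name.t k => Sum.inl k
    | Name.expt k => Sum.inr (Sum.inl k)
    | Name.p i => Sum.inr (Sum.inr (Sum.inl i))
    | Name.zeta i => Sum.inr (Sum.inr (Sum.inr (Sum.inl i)))
    | Name.wp i => Sum.inr (Sum.inr (Sum.inr (Sum.inr i)))
  have hg : Function.LeftInverse g f := by
    rintro (a | a | a | a | a) <;> rfl
  refine ⟨f, hg.injective, ?_⟩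
  intro q Λ ty p t z i
  rcases i with a | a | a | a | a <;> rfl

/-- For `n` curves (equal or different) one can choose, for each `j`, `s_j + 2 r_j` different functions `e_j`
among the `2 s_j + 3 r_j` functions of the `j`-th curve with the property stated above, for all compact sets `K_j`
contained in `U_j`, and all `m`, `g`, `d`, `A` and `δ > 0`. -/
theorem result {n : ℕ} {q r s : Fin n → ℕ} (U : Fin n → Set ℂ) (Λ : ∀ j, Fin (q j) → PeriodPair)
    (ty : ∀ j, Fin (r j) → Fin (q j)) (p : ∀ j, Fin (r j) → ℂ → ℂ) (t : ∀ j, Fin (s j) → ℂ → ℂ)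
    (hU : ∀ j, Curve (U j) (Λ j) (ty j) (p j) (t j)) :
    ∃ e : ∀ j, Fin (s j + 2 * r j) → Name (r j) (s j), (∀ j, Function.Injective (e j)) ∧
      ∀ K : Fin n → Set ℂ, (∀ j, IsCompact (K j)) → (∀ j, K j ⊆ U j) → ∀ (m g d : ℕ) (A δ : ℝ), 0 < δ →
        ∃ (B : ℝ) (C : ℕ) (T₀ : ℝ), ∀ (F : Type) [Field F] [NumberField F], Module.finrank ℚ F ≤ m →
          ∀ (ι : F →+* ℂ) (ξ : Fin g → ℂ) (T : ℝ), T₀ ≤ T → ∀ X : Fin n → Finset F,
            (∀ j, ∀ x ∈ X j, ι x ∈ K j ∧ HeightLe F T x) → (∀ j, ∀ x ∈ X j, ∀ y ∈ X j, ‖ι x - ι y‖ ≤ T ^ (-δ)) →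
            (({x : Fin n → F | (∀ j, x j ∈ X j) ∧ ¬ Good F ι ξ d (T ^ A) (T ^ (-B))
              (fun k : Σ j, Fin (s j + 2 * r j) =>
                value (Λ k.1) (ty k.1) (p k.1) (t k.1) (ι (x k.1)) (e k.1 k.2))}.ncard : ℝ) ≤
              C * ∑ j, ∏ i ∈ Finset.univ.erase j, ((X i).card : ℝ)) ∧
            ((∀ j, C < (X j).card) → ∃ x : Fin n → F, (∀ j, x j ∈ X j) ∧ Good F ι ξ d (T ^ A) (T ^ (-B))
              (fun k : Σ j, Fin (s j + 2 * r j) =>
                value (Λ k.1) (ty k.1) (p k.1) (t k.1) (ι (x k.1)) (e k.1 k.2))) := by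
  classical
  have hF : ∀ j, Y776.Cv.FxM (U j) (Λ j) (ty j) (p j) (t j) := fun j =>
    { isOpen := (hU j).isOpen, conn := (hU j).isPreconnected, ni := (hU j).nonisogenous
      ua := (hU j).analytic_p, un := (hU j).p_notMem, ui := (hU j).independent_p
      la := (hU j).analytic_t, li := (hU j).independent_t }
  choose e he hL using fun j => Y776.Cv.fix_sub (hF j) (hU j).pos (hU j).nonempty
  choose nm hnm hv' using fun j => exists_name (r j) (s j)
  have hv : ∀ j z i, value (Λ j) (ty j) (p j) (t j) z (nm j i) =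
      Y776.Cv.yf (Λ j) (ty j) (p j) (t j) i z := fun j z i => hv' j (Λ j) (ty j) (p j) (t j) z i
  refine ⟨fun j k => nm j (e j k), fun j => (hnm j).comp (he j), ?_⟩
  intro K hK hKU m g d A δ hδ
  have hfun : ∀ (j : Fin n) (k : Fin (s j + 2 * r j)),
      (fun z => value (Λ j) (ty j) (p j) (t j) z (nm j (e j k))) = Y776.Cv.yf (Λ j) (ty j) (p j) (t j) (e j k) :=
    fun j k => funext fun z => hv j z _
  exact Pool.Agent.R349.Gen.shortS m n g d (κ := fun j => Fin (s j + 2 * r j)) (fun j => (hU j).isOpen)
    (fun j => (hU j).isPreconnected) (fun j k z => value (Λ j) (ty j) (p j) (t j) z (nm j (e j k)))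
    (fun j k => by
      rw [hfun j k]
      exact Y776.Cv.yf_an (hF j) _)
    (fun j t' ht => by
      have h1 : (fun (k : Fin (s j + 2 * r j)) z => value (Λ j) (ty j) (p j) (t j) z (nm j (e j k))) = fun k =>
          Y776.Cv.yf (Λ j) (ty j) (p j) (t j) (e j k) :=
        funext fun k => hfun j k
      rw [h1]
      exact hL j t' ht) K hK hKU A δ hδ

end Pool.Agent.Results.MP_8da9ea_nt.SmallDiscs
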