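import Pool.Agent.R349.Short2
import Pool.Agent.Y776.Cv.Var
import Pool.Agent.TH813.EKPer

/-!
# The elliptico-toric conjecture in arbitrary analytic families: a bounded number of exceptions in small discs

Let `Λ_z` be a family of lattices with periods `ω₁(z), ω₂(z)`, analytic functions on a connected open set `U` whose
quotient is not constant, let `p_1, …, p_r` be analytic functions on `U` which are independent modulo the lattices (no
nontrivial combination `∑ n_i p_i(z)` with integral coefficients is in `Λ_z` for all `z`) and let `t_1, …, t_s` be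
analytic functions no nontrivial combination of which with integral coefficients is constant. There is no other
condition on these functions; `g₂, g₃`, `℘(p_i)`, `exp(t_k)` need not be algebraic.

For each `z` the elliptico-toric conjecture says that in general (for independent `2 π i, t_k(z)`, and `p_i(z)`
independent modulo `ℚ Λ_z`, without complex multiplication) the transcendence degree of the field generated by `g₂, g₃,
ω₁, ω₂, η₁, η₂`, `p_i, ℘(p_i), ζ(p_i)`, `t_k, exp(t_k)` is at least `4 + 2 r + s`, hence at least `3 + 2 r + s` over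
`ℚ(π)`. We show that `3 + 2 r + s` fixed numbers among them satisfy no approximate relation of bounded degree and height
`T ^ A` at algebraic points of height at most `T`, with **at most `C` exceptions in each disc of radius `T ^ (-δ)`**, for
all number fields of degree at most `m`, for `δ > 0` arbitrary: let `X_1, …, X_n` be finite sets of elements `x` of a
number field `F` of degree at most `m`, of height at most `T`, with images in compact sets `K_j`, each of the `X_j` of
diameter at most `T ^ (-δ)`; for instance all elements of `X_j` can be fractions with one fixed denominator `T`. For `n`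
families and the tuples of `X_1 × … × X_n` all but `C ∑_j ∏_(i ≠ j) |X_i|` tuples are good, and there is a good one if
all `|X_j| > C`. Good means that the `∑ (3 + 2 r_j + s_j)` numbers satisfy no approximate relation of degree at most `d`
and height at most `T ^ A` whose coefficients are combinations of given complex numbers `ξ_1, …, ξ_g`, for instance of
the powers of `π` and of other periods, and together with `π` no relation over `F`; so the `4 + 2 r + s` numbers
predicted by the conjecture have no such relation.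

The starting result `MP_8da9ea_nt.AnalyticFamilies` has `C T ^ ε` exceptions among all points of height at most `T`,
which says nothing about a small disc or about fractions with one fixed denominator; it is not used.

The proof uses an Ax-Schanuel theorem for families of elliptic curves, relative to countable fields of constants
(`Pool.Agent.Y776.Cv.var_sub`), and a determinant method for small discs (`Pool.Agent.R349.Gen.shortS`).
-/

set_option autoImplicit false

open NumberField
open scoped PeriodPair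

namespace Pool.Agent.Results.MP_8da9ea_nt.SmallDiscsFamilies

/-- The Weierstrass zeta function `ζ(z) = ∑ (1/(z-l) + 1/l + z/l²)`, the sum over the lattice (the summand of `l = 0` is
`1/z`, since `1/0 = 0` in Lean). -/
noncomputable def ζ (L : PeriodPair) (z : ℂ) : ℂ :=
  ∑' l : L.lattice, (1 / (z - l) + 1 / l + z / l ^ 2)

/-- An analytic family of lattices with points and exponents. -/
structure Family (U : Set ℂ) {r s : ℕ} (Λ : ℂ → PeriodPair) (p : Fin r → ℂ → ℂ) (t : Fin s → ℂ → ℂ) : Prop where
  isOpen : IsOpen U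
  isPreconnected : IsPreconnected U
  nonempty : U.Nonempty
  /-- the lattice depends analytically on `z` -/
  analytic₁ : AnalyticOnNhd ℂ (fun z => (Λ z).ω₁) U
  analytic₂ : AnalyticOnNhd ℂ (fun z => (Λ z).ω₂) U
  /-- the quotient of the periods is not constant -/
  nonconstant : ∀ c : ℂ, ∃ z ∈ U, (Λ z).ω₂ / (Λ z).ω₁ ≠ c
  /-- the functions are analytic and the points of the elliptic curves are not zero -/
  analytic_p : ∀ i, AnalyticOnNhd ℂ (p i) U
  p_notMem : ∀ i, ∀ z ∈ U, p i z ∉ (Λ z).lattice
  analytic_t : ∀ k, AnalyticOnNhd ℂ (t k) U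
  /-- the points are independent modulo torsion -/
  independent_p : ∀ n : Fin r → ℤ, (∀ z ∈ U, ∑ i, (n i : ℂ) * p i z ∈ (Λ z).lattice) → n = 0
  /-- no nontrivial combination with integral coefficients of the `t_k` is constant -/
  independent_t : ∀ (m : Fin s → ℤ) (b : ℂ), (∀ z ∈ U, ∑ k, (m k : ℂ) * t k z = b) → m = 0

/-- The names of the functions `ω₁, ω₂, η₁, g₂, g₃`, `p_i`, `℘(p_i)`, `ζ(p_i)`, `t_k`, `exp(t_k)`. -/
inductive Name (r s : ℕ) : Type
  | omega₁ : Name r s
  | omega₂ : Name r s
  | eta₁ : Name r s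
  | g₂ : Name r s
  | g₃ : Name r s
  | p : Fin r → Name r s
  | wp : Fin r → Name r s
  | zeta : Fin r → Name r s
  | t : Fin s → Name r s
  | expt : Fin s → Name r s

/-- The values of the functions at the point `z`; here `η₁ = 2 ζ(ω₁ / 2)` (and `η₂` is determined by Legendre's
relation `ω₂ η₁ - ω₁ η₂ = ± 2 π i`). -/
noncomputable def value {r s : ℕ} (Λ : ℂ → PeriodPair) (p : Fin r → ℂ → ℂ) (t : Fin s → ℂ → ℂ) (z : ℂ) :
    Name r s → ℂ
  | Name.omega₁ => (Λ z).ω₁
  | Name.omega₂ => (Λ z).ω₂
  | Name.eta₁ => 2 * ζ (Λ z) ((Λ z).ω₁ / 2)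
  | Name.g₂ => (Λ z).g₂
  | Name.g₃ => (Λ z).g₃
  | Name.p i => p i z
  | Name.wp i => ℘[Λ z] (p i z)
  | Name.zeta i => ζ (Λ z) (p i z)
  | Name.t k => t k z
  | Name.expt k => Complex.exp (t k z)

/-- The polynomials of degree at most `d` in each variable, all of whose coefficients are of the form `∑ ξ_i ι(c_i)`, where
the `c_i` are integers of the number field `F` all of whose conjugates have absolute value at most `H`. -/
def Admissible {σ : Type} {g : ℕ} (F : Type) [Field F] [NumberField F] (ι : F →+* ℂ) (ξ : Fin g → ℂ) (d : ℕ) (H : ℝ)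
    (P : MvPolynomial σ ℂ) : Prop :=
  (∀ y, P.degreeOf y ≤ d) ∧
    ∀ s, ∃ c : Fin g → 𝓞 F, (∀ i (φ : F →+* ℂ), ‖φ (c i)‖ ≤ H) ∧ P.coeff s = ∑ i, ξ i * ι (c i)

/-- The complex numbers `v` are good: every admissible polynomial takes at them a value which is at least `δ` times each of
its coefficients, and `π` and these numbers satisfy no relation `Q = 0` with a nonzero polynomial `Q` of degree at most `d`
in each variable whose coefficients are integers of `F` with conjugates of absolute value at most `H`. -/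
def Good {σ : Type} {g : ℕ} (F : Type) [Field F] [NumberField F] (ι : F →+* ℂ) (ξ : Fin g → ℂ) (d : ℕ)
    (H δ : ℝ) (v : σ → ℂ) : Prop :=
  (∀ P : MvPolynomial σ ℂ, Admissible F ι ξ d H P → ∀ s, δ * ‖P.coeff s‖ ≤ ‖MvPolynomial.aeval v P‖) ∧
  ∀ Q : MvPolynomial (Option σ) (𝓞 F), Q ≠ 0 → (∀ x, Q.degreeOf x ≤ d) →
    (∀ s (φ : F →+* ℂ), ‖φ ((Q.coeff s : 𝓞 F) : F)‖ ≤ H) →
    MvPolynomial.eval₂ (ι.comp (algebraMap (𝓞 F) F)) (fun o => o.elim (Real.pi : ℂ) v) Q ≠ 0

/-- The element `x` of `F` is a quotient of integers all of whose conjugates have absolute value at most `T`. -/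
def HeightLe (F : Type) [Field F] [NumberField F] (T : ℝ) (x : F) : Prop :=
  ∃ a b : 𝓞 F, b ≠ 0 ∧ (∀ φ : F →+* ℂ, ‖φ a‖ ≤ T ∧ ‖φ b‖ ≤ T) ∧ x = a / b

theorem exists_name (r s : ℕ) : ∃ f : Y776.Cv.Nv r s → Name r s, Function.Injective f ∧
    ∀ (Λ : ℂ → PeriodPair) (p : Fin r → ℂ → ℂ) (t : Fin s → ℂ → ℂ) (z : ℂ) (i : Y776.Cv.Nv r s),
      value Λ p t z (f i) = Y776.Cv.yv Λ p t i z := by
  let f : Y776.Cv.Nv r s → Name r s :=
    Sum.elim ![Name.omega₁, Name.omega₂, Name.eta₁, Name.g₂, Name.g₃] (Sum.elim Name.p (Sum.elim Name.zeta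
      (Sum.elim Name.wp (Sum.elim Name.t Name.expt))))
  let g : Name r s → Y776.Cv.Nv r s := fun a => match a with
    | Name.omega₁ => Sum.inl 0
    | Name.omega₂ => Sum.inl 1
    | Name.eta₁ => Sum.inl 2
    | Name.g₂ => Sum.inl 3
    | Name.g₃ => Sum.inl 4
    | Name.p i => Sum.inr (Sum.inl i)
    | Name.zeta i => Sum.inr (Sum.inr (Sum.inl i))
    | Name.wp i => Sum.inr (Sum.inr (Sum.inr (Sum.inl i)))
    | Name.t k => Sum.inr (Sum.inr (Sum.inr (Sum.inr (Sum.inl k))))
    | Name.expt k => Sum.inr (Sum.inr (Sum.inr (Sum.inr (Sum.inr k))))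
  have hg : Function.LeftInverse g f := by
    rintro (a | a | a | a | a | a)
    · fin_cases a <;> rfl
    all_goals rfl
  refine ⟨f, hg.injective, ?_⟩
  rintro Λ p t z (a | a | a | a | a | a)
  · fin_cases a
    · rfl
    · rfl
    · exact (Pool.Agent.TH813.Ell.eta_half (Λ z).ω₁_mem_lattice (Pool.Agent.TH813.Ell.half₁ (Λ z))).symm
    · rfl
    · rfl
  all_goals rfl

/-- For `n` families (equal or different) one can choose, for each `j`, `3 + 2 r_j + s_j` different functions `e_j`
among the `5 + 3 r_j + 2 s_j` functions of the `j`-th family with the property stated above, for all compact sets `K_j`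
contained in `U_j`, and all `m`, `g`, `d`, `A` and `δ > 0`. -/
theorem result {n : ℕ} {r s : Fin n → ℕ} (U : Fin n → Set ℂ) (Λ : Fin n → ℂ → PeriodPair)
    (p : ∀ j, Fin (r j) → ℂ → ℂ) (t : ∀ j, Fin (s j) → ℂ → ℂ) (hU : ∀ j, Family (U j) (Λ j) (p j) (t j)) :
    ∃ e : ∀ j, Fin (3 + 2 * r j + s j) → Name (r j) (s j), (∀ j, Function.Injective (e j)) ∧
      ∀ K : Fin n → Set ℂ, (∀ j, IsCompact (K j)) → (∀ j, K j ⊆ U j) → ∀ (m g d : ℕ) (A δ : ℝ), 0 < δ →
        ∃ (B : ℝ) (C : ℕ) (T₀ : ℝ), ∀ (F : Type) [Field F] [NumberField F], Module.finrank ℚ F ≤ m →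
          ∀ (ι : F →+* ℂ) (ξ : Fin g → ℂ) (T : ℝ), T₀ ≤ T → ∀ X : Fin n → Finset F,
            (∀ j, ∀ x ∈ X j, ι x ∈ K j ∧ HeightLe F T x) → (∀ j, ∀ x ∈ X j, ∀ y ∈ X j, ‖ι x - ι y‖ ≤ T ^ (-δ)) →
            (({x : Fin n → F | (∀ j, x j ∈ X j) ∧ ¬ Good F ι ξ d (T ^ A) (T ^ (-B))
              (fun k : Σ j, Fin (3 + 2 * r j + s j) =>
                value (Λ k.1) (p k.1) (t k.1) (ι (x k.1)) (e k.1 k.2))}.ncard : ℝ) ≤
              C * ∑ j, ∏ i ∈ Finset.univ.erase j, ((X i).card : ℝ)) ∧
            ((∀ j, C < (X j).card) → ∃ x : Fin n → F, (∀ j, x j ∈ X j) ∧ Good F ι ξ d (T ^ A) (T ^ (-B))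
              (fun k : Σ j, Fin (3 + 2 * r j + s j) =>
                value (Λ k.1) (p k.1) (t k.1) (ι (x k.1)) (e k.1 k.2))) := by
  classical
  have hF : ∀ j, Y776.Cv.FxV (U j) (Λ j) (p j) (t j) := fun j =>
    { isOpen := (hU j).isOpen, conn := (hU j).isPreconnected, an₁ := (hU j).analytic₁, an₂ := (hU j).analytic₂
      nr := (hU j).nonconstant, ua := (hU j).analytic_p, un := (hU j).p_notMem, ui := (hU j).independent_p
      la := (hU j).analytic_t, li := (hU j).independent_t }
  have hsub : ∀ j, ∃ e : Fin (3 + 2 * r j + s j) → Y776.Cv.Nv (r j) (s j), Function.Injective e ∧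
      ∀ t' ∈ U j, Y124.LocInd (fun k => Y776.Cv.yv (Λ j) (p j) (t j) (e k)) t' := fun j => by
    have h1 : 3 + 2 * r j + s j = 3 + (s j + 2 * r j) := by ring
    rw [h1]
    exact Y776.Cv.var_sub (hF j) (hU j).nonempty
  choose e he hL using hsub
  choose nm hnm hv' using fun j => exists_name (r j) (s j)
  have hv : ∀ j z i, value (Λ j) (p j) (t j) z (nm j i) = Y776.Cv.yv (Λ j) (p j) (t j) i z := fun j z i =>
    hv' j (Λ j) (p j) (t j) z i
  refine ⟨fun j k => nm j (e j k), fun j => (hnm j).comp (he j), ?_⟩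
  intro K hK hKU m g d A δ hδ
  have hfun : ∀ (j : Fin n) (k : Fin (3 + 2 * r j + s j)),
      (fun z => value (Λ j) (p j) (t j) z (nm j (e j k))) = Y776.Cv.yv (Λ j) (p j) (t j) (e j k) :=
    fun j k => funext fun z => hv j z _
  exact Pool.Agent.R349.Gen.shortS m n g d (κ := fun j => Fin (3 + 2 * r j + s j)) (fun j => (hU j).isOpen)
    (fun j => (hU j).isPreconnected) (fun j k z => value (Λ j) (p j) (t j) z (nm j (e j k)))
    (fun j k => by
      rw [hfun j k]
      exact Y776.Cv.yv_an (hF j) _)
    (fun j t' ht => by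
      have h1 : (fun (k : Fin (3 + 2 * r j + s j)) z => value (Λ j) (p j) (t j) z (nm j (e j k))) = fun k =>
          Y776.Cv.yv (Λ j) (p j) (t j) (e j k) :=
        funext fun k => hfun j k
      rw [h1]
      exact hL j t' ht) K hK hKU A δ hδ

end Pool.Agent.Results.MP_8da9ea_nt.SmallDiscsFamilies
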